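import Mathlib

set_option autoImplicit false

namespace Pool.Agent.Results.MP_334071_al.AllOddMultiplesOfThree

/-- The free Burnside group of exponent `n` on the set `α` of free generators (of any rank). -/
abbrev Burnside (α : Type) (n : ℕ) : Type :=
  FreeGroup α ⧸ Subgroup.normalClosure (Set.range (fun g : FreeGroup α => g ^ n))

/-- The Burnside `n`-product of the cyclic groups `⟨a | a ^ k⟩` and `⟨b | b ^ l⟩`. -/
abbrev BurnsideProduct (n k l : ℕ) : Type :=
  FreeGroup (Fin 2) ⧸ Subgroup.normalClosure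
    (({FreeGroup.of (0 : Fin 2) ^ k, FreeGroup.of (1 : Fin 2) ^ l} : Set (FreeGroup (Fin 2))) ∪
      Set.range (fun g : FreeGroup (Fin 2) => g ^ n))

/-! ### The Heisenberg group over a commutative ring -/

/-- Elements of the Heisenberg group over `R`. -/
@[ext] structure Heis (R : Type) where
  x : R
  y : R
  z : R

namespace Heis

variable {R : Type} [CommRing R]

instance : Mul (Heis R) := ⟨fun a b => ⟨a.x + b.x, a.y + b.y, a.z + b.z + a.x * b.y⟩⟩
instance : One (Heis R) := ⟨⟨0, 0, 0⟩⟩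
instance : Inv (Heis R) := ⟨fun a => ⟨-a.x, -a.y, -a.z + a.x * a.y⟩⟩

@[simp] theorem mul_x (a b : Heis R) : (a * b).x = a.x + b.x := rfl
@[simp] theorem mul_y (a b : Heis R) : (a * b).y = a.y + b.y := rfl
@[simp] theorem mul_z (a b : Heis R) : (a * b).z = a.z + b.z + a.x * b.y := rfl
@[simp] theorem one_x : (1 : Heis R).x = 0 := rfl
@[simp] theorem one_y : (1 : Heis R).y = 0 := rfl
@[simp] theorem one_z : (1 : Heis R).z = 0 := rfl
@[simp] theorem inv_x (a : Heis R) : (a⁻¹).x = -a.x := rfl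
@[simp] theorem inv_y (a : Heis R) : (a⁻¹).y = -a.y := rfl
@[simp] theorem inv_z (a : Heis R) : (a⁻¹).z = -a.z + a.x * a.y := rfl

instance : Group (Heis R) :=
  Group.ofLeftAxioms
    (by intro a b c; ext <;> simp <;> ring)
    (by intro a; ext <;> simp)
    (by intro a; ext <;> simp)

theorem pow_eq (a : Heis R) (k : ℕ) :
    a ^ k = ⟨k * a.x, k * a.y, k * a.z + (k.choose 2 : ℕ) * (a.x * a.y)⟩ := by
  induction k with
  | zero => rw [pow_zero]; ext <;> simp
  | succ k ih =>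
    rw [pow_succ, ih]
    have h : (k + 1).choose 2 = k + k.choose 2 := by
      rw [Nat.choose_succ_succ' k 1, Nat.choose_one_right]
    ext
    · simp; ring
    · simp; ring
    · simp only [mul_z, h]; push_cast; ring

end Heis

theorem heis_pow_exponent {n : ℕ} (hn : Odd n) (a : Heis (ZMod n)) : a ^ n = 1 := by
  rw [Heis.pow_eq]
  have h0 : ((n : ℕ) : ZMod n) = 0 := ZMod.natCast_self _
  have h1 : ((n.choose 2 : ℕ) : ZMod n) = 0 := by
    obtain ⟨j, rfl⟩ := hn
    rw [Nat.choose_two_right]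
    have : (2 * j + 1) * (2 * j + 1 - 1) / 2 = (2 * j + 1) * j := by
      rw [show (2 * j + 1) * (2 * j + 1 - 1) = 2 * ((2 * j + 1) * j) by
        rw [Nat.add_sub_cancel]; ring]
      exact Nat.mul_div_cancel_left _ (by norm_num)
    rw [this, Nat.cast_mul, h0, zero_mul]
  ext
  · simp only [h0, zero_mul]; rfl
  · simp only [h0, zero_mul]; rfl
  · simp only [h0, h1, zero_mul, add_zero]; rfl

/-! ### Two-generated groups mapping to `R × R` -/

theorem det_unit_aux {R : Type} [CommRing R] {p q p' q' : R} {i j i' j' : R}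
    (h1 : i * p + j * p' = 1) (h2 : i * q + j * q' = 0)
    (h4 : i' * q + j' * q' = 1) {c : R}
    (hc : c * (p * q' - p' * q) = 0) : c = 0 := by
  have : (i * j' - j * i') * (p * q' - p' * q) = 1 := by
    linear_combination (i' * q + j' * q') * h1 - (i' * p + j' * p') * h2 + h4
  calc c = c * ((i * j' - j * i') * (p * q' - p' * q)) := by rw [this, mul_one]
    _ = (i * j' - j * i') * (c * (p * q' - p' * q)) := by ring
    _ = 0 := by rw [hc, mul_zero]

theorem combos {R : Type} [CommRing R] (f : FreeGroup (Fin 2) →* Multiplicative (R × R))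
    (w : FreeGroup (Fin 2)) :
    ∃ i j : ℤ, Multiplicative.toAdd (f w) =
      i • Multiplicative.toAdd (f (FreeGroup.of 0)) +
      j • Multiplicative.toAdd (f (FreeGroup.of 1)) := by
  induction w using FreeGroup.induction_on with
  | C1 => exact ⟨0, 0, by rw [map_one]; simp⟩
  | of k =>
    fin_cases k
    · exact ⟨1, 0, by simp⟩
    · exact ⟨0, 1, by simp⟩
  | inv_of k _ =>
    fin_cases k
    · exact ⟨-1, 0, by simp⟩
    · exact ⟨0, -1, by simp⟩
  | mul x y hx hy =>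
    obtain ⟨i, j, h⟩ := hx
    obtain ⟨i', j', h'⟩ := hy
    refine ⟨i + i', j + j', ?_⟩
    rw [map_mul, toAdd_mul, h, h', add_smul, add_smul]
    abel

theorem det_cancel {R : Type} [CommRing R] (f : FreeGroup (Fin 2) →* Multiplicative (R × R))
    {w w' : FreeGroup (Fin 2)} (hw : Multiplicative.toAdd (f w) = (1, 0))
    (hw' : Multiplicative.toAdd (f w') = (0, 1)) {c : R}
    (hc : c * ((Multiplicative.toAdd (f (FreeGroup.of 0))).1 *
        (Multiplicative.toAdd (f (FreeGroup.of 1))).2 -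
      (Multiplicative.toAdd (f (FreeGroup.of 1))).1 *
        (Multiplicative.toAdd (f (FreeGroup.of 0))).2) = 0) : c = 0 := by
  obtain ⟨i, j, h⟩ := combos f w
  obtain ⟨i', j', h'⟩ := combos f w'
  rw [hw] at h
  rw [hw'] at h'
  set u := Multiplicative.toAdd (f (FreeGroup.of 0))
  set v := Multiplicative.toAdd (f (FreeGroup.of 1))
  have e1 := congrArg Prod.fst h
  have e2 := congrArg Prod.snd h
  have e4 := congrArg Prod.snd h'
  simp only [Prod.fst_add, Prod.snd_add, Prod.smul_fst, Prod.smul_snd, zsmul_eq_mul] at e1 e2 e4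
  exact det_unit_aux (i := (i : R)) (j := (j : R)) (i' := (i' : R)) (j' := (j' : R))
    e1.symm e2.symm e4.symm hc

/-- The projection of the Heisenberg group to `R × R`. -/
def proj (R : Type) [CommRing R] : Heis R →* Multiplicative (R × R) where
  toFun g := Multiplicative.ofAdd (g.x, g.y)
  map_one' := rfl
  map_mul' _ _ := rfl

/-- The abstract core: a group `G`, two elements `a`, `b` with `(b⁻¹ a b a⁻¹) ^ l = 1` such that
`⟨a, b⟩` maps onto `(ZMod n) ^ 2`. -/
theorem core {n : ℕ} (hodd : Odd n) {G : Type} [Group G] (a b : G) (l : ℕ)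
    (hcomm : (b⁻¹ * a * b * a⁻¹) ^ l = 1)
    (pi : (Subgroup.closure ({a, b} : Set G)) →* Multiplicative (ZMod n × ZMod n))
    (ha : a ∈ Subgroup.closure ({a, b} : Set G)) (hb : b ∈ Subgroup.closure ({a, b} : Set G))
    (hpa : Multiplicative.toAdd (pi ⟨a, ha⟩) = (-1, 0))
    (hpb : Multiplicative.toAdd (pi ⟨b, hb⟩) = (1, 1)) (r r' : ℕ)
    (φ : Subgroup.closure ({a, b} : Set G) ≃* BurnsideProduct n r r') : (l : ZMod n) = 0 := by
  -- the free group maps onto `H`
  let η : FreeGroup (Fin 2) →* Subgroup.closure ({a, b} : Set G) :=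
    FreeGroup.lift ![⟨a, ha⟩, ⟨b, hb⟩]
  have hη0 : η (FreeGroup.of 0) = ⟨a, ha⟩ := by simp [η]
  have hη1 : η (FreeGroup.of 1) = ⟨b, hb⟩ := by simp [η]
  have hη : Function.Surjective η := by
    rintro ⟨h, hh⟩
    have hle : Subgroup.closure ({a, b} : Set G) ≤
        ((Subgroup.closure ({a, b} : Set G)).subtype.comp η).range := by
      rw [Subgroup.closure_le]
      rintro x (rfl | hx)
      · exact ⟨FreeGroup.of 0, by rw [MonoidHom.comp_apply, hη0]; rfl⟩
      · rw [Set.mem_singleton_iff] at hx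
        rw [hx]
        exact ⟨FreeGroup.of 1, by rw [MonoidHom.comp_apply, hη1]; rfl⟩
    obtain ⟨w, hw⟩ := hle hh
    exact ⟨w, Subtype.ext hw⟩
  -- step one
  let q : FreeGroup (Fin 2) →* BurnsideProduct n r r' := QuotientGroup.mk' _
  have hq : Function.Surjective q := QuotientGroup.mk'_surjective _
  let F1 : FreeGroup (Fin 2) →* Multiplicative (ZMod n × ZMod n) :=
    (pi.comp φ.symm.toMonoidHom).comp q
  have hF1 : ∀ w, F1 w = pi (φ.symm (q w)) := fun w => rfl
  obtain ⟨w0, hw0⟩ := hq (φ (⟨a, ha⟩⁻¹))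
  obtain ⟨w1, hw1⟩ := hq (φ (⟨a, ha⟩ * ⟨b, hb⟩))
  have e0 : Multiplicative.toAdd (F1 w0) = (1, 0) := by
    rw [hF1, hw0, MulEquiv.symm_apply_apply, map_inv, toAdd_inv, hpa]
    simp
  have e1 : Multiplicative.toAdd (F1 w1) = (0, 1) := by
    rw [hF1, hw1, MulEquiv.symm_apply_apply, map_mul, toAdd_mul, hpa, hpb]
    simp
  have hr0 : q (FreeGroup.of 0 ^ r) = 1 := by
    show (QuotientGroup.mk (FreeGroup.of 0 ^ r) : BurnsideProduct n r r') = 1
    rw [QuotientGroup.eq_one_iff]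
    exact Subgroup.subset_normalClosure (by simp)
  have hr1 : q (FreeGroup.of 1 ^ r') = 1 := by
    show (QuotientGroup.mk (FreeGroup.of 1 ^ r') : BurnsideProduct n r r') = 1
    rw [QuotientGroup.eq_one_iff]
    exact Subgroup.subset_normalClosure (by simp)
  have f0 : r • Multiplicative.toAdd (F1 (FreeGroup.of 0)) = 0 := by
    rw [← toAdd_pow, ← map_pow, hF1, hr0, map_one, map_one, toAdd_one]
  have f1 : r' • Multiplicative.toAdd (F1 (FreeGroup.of 1)) = 0 := by
    rw [← toAdd_pow, ← map_pow, hF1, hr1, map_one, map_one, toAdd_one]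
  have hrz : (r : ZMod n) = 0 := by
    apply det_cancel F1 e0 e1
    have g1 : r • (Multiplicative.toAdd (F1 (FreeGroup.of 0))).1 = 0 := congrArg Prod.fst f0
    have g2 : r • (Multiplicative.toAdd (F1 (FreeGroup.of 0))).2 = 0 := congrArg Prod.snd f0
    rw [nsmul_eq_mul] at g1 g2
    linear_combination (Multiplicative.toAdd (F1 (FreeGroup.of 1))).2 * g1 -
      (Multiplicative.toAdd (F1 (FreeGroup.of 1))).1 * g2
  have hrz' : (r' : ZMod n) = 0 := by
    apply det_cancel F1 e0 e1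
    have g1 : r' • (Multiplicative.toAdd (F1 (FreeGroup.of 1))).1 = 0 := congrArg Prod.fst f1
    have g2 : r' • (Multiplicative.toAdd (F1 (FreeGroup.of 1))).2 = 0 := congrArg Prod.snd f1
    rw [nsmul_eq_mul] at g1 g2
    linear_combination (Multiplicative.toAdd (F1 (FreeGroup.of 0))).1 * g2 -
      (Multiplicative.toAdd (F1 (FreeGroup.of 0))).2 * g1
  -- step two: the map to the Heisenberg group
  let X : Heis (ZMod n) := ⟨1, 0, 0⟩
  let Y : Heis (ZMod n) := ⟨0, 1, 0⟩
  let θ : FreeGroup (Fin 2) →* Heis (ZMod n) := FreeGroup.lift ![X, Y]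
  have hθ : Subgroup.normalClosure
      (({FreeGroup.of (0 : Fin 2) ^ r, FreeGroup.of (1 : Fin 2) ^ r'} :
        Set (FreeGroup (Fin 2))) ∪
      Set.range (fun g : FreeGroup (Fin 2) => g ^ n)) ≤ θ.ker := by
    apply Subgroup.normalClosure_le_normal
    rintro x ((rfl | hx) | ⟨g, rfl⟩)
    · rw [SetLike.mem_coe, MonoidHom.mem_ker, map_pow, FreeGroup.lift_apply_of, Heis.pow_eq]
      ext <;> simp [X, hrz]
    · rw [Set.mem_singleton_iff] at hx
      rw [hx, SetLike.mem_coe, MonoidHom.mem_ker, map_pow, FreeGroup.lift_apply_of, Heis.pow_eq]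
      ext <;> simp [Y, hrz']
    · rw [SetLike.mem_coe, MonoidHom.mem_ker, map_pow]
      exact heis_pow_exponent hodd _
  let Θ : BurnsideProduct n r r' →* Heis (ZMod n) := QuotientGroup.lift _ θ (fun w hw => hθ hw)
  have hΘ : ∀ w, Θ (q w) = θ w := fun w => rfl
  let f : Subgroup.closure ({a, b} : Set G) →* Heis (ZMod n) := Θ.comp φ.toMonoidHom
  have hf : ∀ h, f h = Θ (φ h) := fun h => rfl
  let F2 : FreeGroup (Fin 2) →* Multiplicative (ZMod n × ZMod n) :=
    ((proj _).comp f).comp η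
  have hF2 : ∀ w, F2 w = proj _ (Θ (φ (η w))) := fun w => rfl
  obtain ⟨v0, hv0⟩ := hη (φ.symm (q (FreeGroup.of 0)))
  obtain ⟨v1, hv1⟩ := hη (φ.symm (q (FreeGroup.of 1)))
  have k0 : Multiplicative.toAdd (F2 v0) = (1, 0) := by
    rw [hF2, hv0, MulEquiv.apply_symm_apply, hΘ]
    simp [θ, X, proj]
  have k1 : Multiplicative.toAdd (F2 v1) = (0, 1) := by
    rw [hF2, hv1, MulEquiv.apply_symm_apply, hΘ]
    simp [θ, Y, proj]
  have hcomm' : ((⟨b, hb⟩ : Subgroup.closure ({a, b} : Set G))⁻¹ * ⟨a, ha⟩ * ⟨b, hb⟩ *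
      (⟨a, ha⟩ : Subgroup.closure ({a, b} : Set G))⁻¹) ^ l = 1 :=
    Subtype.ext hcomm
  have hcomm2 := congrArg f hcomm'
  rw [map_pow, map_mul, map_mul, map_mul, map_inv, map_inv, map_one] at hcomm2
  have m0 : F2 (FreeGroup.of 0) = proj _ (f ⟨a, ha⟩) := by
    show proj _ (f (η (FreeGroup.of 0))) = _
    rw [hη0]
  have m1 : F2 (FreeGroup.of 1) = proj _ (f ⟨b, hb⟩) := by
    show proj _ (f (η (FreeGroup.of 1))) = _
    rw [hη1]
  apply det_cancel F2 k0 k1
  rw [m0, m1]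
  show (l : ZMod n) * ((f ⟨a, ha⟩).x * (f ⟨b, hb⟩).y - (f ⟨b, hb⟩).x * (f ⟨a, ha⟩).y) = 0
  have hz := congrArg Heis.z hcomm2
  rw [Heis.pow_eq] at hz
  simp only [Heis.mul_x, Heis.mul_y, Heis.mul_z, Heis.inv_x, Heis.inv_y, Heis.inv_z,
    Heis.one_z] at hz
  linear_combination hz

/-- In a group with `s ^ 3 = t ^ 3 = 1`, a commutator of `s t⁻¹` and `t⁻¹ s` is a cube. -/
theorem comm_eq_cube {G : Type*} [Group G] (s t : G) (hs : s ^ 3 = 1) (ht : t ^ 3 = 1) :
    (t⁻¹ * s)⁻¹ * (s * t⁻¹) * (t⁻¹ * s) * (s * t⁻¹)⁻¹ = (s⁻¹ * t * s⁻¹) ^ 3 := by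
  have key : ∀ u : G, u ^ 3 = 1 → u⁻¹ * u⁻¹ = u := by
    intro u hu
    calc u⁻¹ * u⁻¹ = u⁻¹ * u⁻¹ * u ^ 3 := by rw [hu, mul_one]
      _ = u := by group
  have hs' := key s hs
  have ht' := key t ht
  have h1 : (t⁻¹ * s)⁻¹ * (s * t⁻¹) * (t⁻¹ * s) * (s * t⁻¹)⁻¹
      = s⁻¹ * t * s * (t⁻¹ * t⁻¹) * s * t * s⁻¹ := by group
  have h2 : (s⁻¹ * t * s⁻¹) ^ 3 = s⁻¹ * t * (s⁻¹ * s⁻¹) * t * (s⁻¹ * s⁻¹) * t * s⁻¹ := by
    simp only [pow_succ, pow_zero, one_mul, mul_assoc]
  rw [h1, h2, hs', ht']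

/-! ### Geometric sums in a ring with an element `x` such that `x ^ (2q) + x ^ q + 1 = 0` -/

section Geom

variable {A : Type} [CommRing A]

theorem geom_mul (y : A) (d e : ℕ) :
    ∑ j ∈ Finset.range (d * e), y ^ j =
      (∑ j ∈ Finset.range d, y ^ j) * ∑ j ∈ Finset.range e, (y ^ d) ^ j := by
  induction e with
  | zero => simp
  | succ e ih =>
    rw [Nat.mul_succ, Finset.sum_range_add, ih, Finset.sum_range_succ _ e, mul_add]
    congr 1
    rw [Finset.sum_mul]
    refine Finset.sum_congr rfl fun j _ => ?_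
    rw [pow_add, pow_mul, mul_comm]

theorem geom_three {U : A} (hU : U ^ 2 + U + 1 = 0) (e : ℕ) :
    ∑ j ∈ Finset.range (3 * e), U ^ j = 0 := by
  rw [geom_mul]
  have : ∑ j ∈ Finset.range 3, U ^ j = 0 := by
    rw [Finset.sum_range_succ, Finset.sum_range_succ, Finset.sum_range_succ]
    simp
    linear_combination hU
  rw [this, zero_mul]

theorem cube_one {U : A} (hU : U ^ 2 + U + 1 = 0) : U ^ 3 = 1 := by
  linear_combination (U - 1) * hU

theorem pow_root {U : A} (hU : U ^ 2 + U + 1 = 0) {i : ℕ} (hi : ¬ 3 ∣ i) :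
    (U ^ i) ^ 2 + U ^ i + 1 = 0 := by
  have h3 := cube_one hU
  have h1 : U ^ i = U ^ (i % 3) := by
    conv_lhs => rw [← Nat.div_add_mod i 3, pow_add, pow_mul, h3, one_pow, one_mul]
  rw [h1]
  have h2 : i % 3 = 1 ∨ i % 3 = 2 := by omega
  rcases h2 with h | h
  · rw [h, pow_one]; exact hU
  · rw [h]
    linear_combination hU + U * h3

theorem geom_zero {x : A} {κ l' : ℕ} (hx : (x ^ 3 ^ κ) ^ 2 + x ^ 3 ^ κ + 1 = 0)
    (hn : ((3 ^ (κ + 1) * l' : ℕ) : A) = 0) (i : ℕ) :
    ∑ j ∈ Finset.range (3 ^ (κ + 1) * l'), (x ^ i) ^ j = 0 := by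
  have h3 : x ^ 3 ^ (κ + 1) = 1 := by
    rw [pow_succ, pow_mul]; exact cube_one hx
  by_cases hdvd : 3 ^ (κ + 1) ∣ i
  · obtain ⟨m, rfl⟩ := hdvd
    have : x ^ (3 ^ (κ + 1) * m) = 1 := by rw [pow_mul, h3, one_pow]
    simp only [this, one_pow]
    rw [Finset.sum_const, Finset.card_range, nsmul_eq_mul, mul_one]
    exact hn
  · have hi0 : i ≠ 0 := fun h => hdvd (h ▸ dvd_zero _)
    obtain ⟨e, i', hi', rfl⟩ := Nat.exists_eq_pow_mul_and_not_dvd hi0 3 (by norm_num)
    have he : e ≤ κ := by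
      by_contra hcon
      exact hdvd (Dvd.dvd.mul_right (pow_dvd_pow 3 (by omega)) i')
    obtain ⟨f, rfl⟩ := Nat.exists_eq_add_of_le he
    have e1 : 3 ^ (e + f + 1) * l' = 3 ^ f * (3 * (3 ^ e * l')) := by ring
    have e2 : (x ^ (3 ^ e * i')) ^ 3 ^ f = (x ^ 3 ^ (e + f)) ^ i' := by
      rw [← pow_mul, ← pow_mul]
      congr 1
      ring
    rw [e1, geom_mul, e2, geom_three (pow_root hx hi'), mul_zero]

/-- Permutations of the form `v ↦ x ^ i v + w`. -/
def Good (x : A) (g : Equiv.Perm A) : Prop := ∃ (i : ℕ) (w : A), ∀ v, g v = x ^ i * v + w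

theorem good_one (x : A) : Good x 1 := ⟨0, 0, fun v => by simp⟩

theorem good_mul {x : A} {g h : Equiv.Perm A} (hg : Good x g) (hh : Good x h) :
    Good x (g * h) := by
  obtain ⟨i, w, hg⟩ := hg
  obtain ⟨j, w', hh⟩ := hh
  refine ⟨i + j, x ^ i * w' + w, fun v => ?_⟩
  rw [Equiv.Perm.mul_apply, hg, hh]
  ring

theorem good_inv {x : A} {N : ℕ} (hN : 0 < N) (hx : x ^ N = 1) {g : Equiv.Perm A}
    (hg : Good x g) : Good x g⁻¹ := by
  obtain ⟨i, w, hg⟩ := hg
  have h1 : x ^ ((N - 1) * i) * x ^ i = 1 := by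
    rw [← pow_add]
    have : (N - 1) * i + i = N * i := by
      obtain ⟨M, rfl⟩ := Nat.exists_eq_add_of_le hN
      simp; ring
    rw [this, pow_mul, hx, one_pow]
  refine ⟨(N - 1) * i, -(x ^ ((N - 1) * i) * w), fun v => ?_⟩
  obtain ⟨v', rfl⟩ := g.surjective v
  rw [show g⁻¹ (g v') = v' from g.symm_apply_apply v', hg]
  linear_combination (-v') * h1

theorem good_pow {x : A} {g : Equiv.Perm A} {i : ℕ} {w : A} (hg : ∀ v, g v = x ^ i * v + w)
    (k : ℕ) : ∀ v, (g ^ k) v = (x ^ i) ^ k * v + (∑ j ∈ Finset.range k, (x ^ i) ^ j) * w := by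
  induction k with
  | zero => intro v; simp
  | succ k ih =>
    intro v
    rw [pow_succ, Equiv.Perm.mul_apply, hg, ih, Finset.sum_range_succ]
    ring

theorem good_exponent {x : A} {κ l' : ℕ} (hx : (x ^ 3 ^ κ) ^ 2 + x ^ 3 ^ κ + 1 = 0)
    (hn : ((3 ^ (κ + 1) * l' : ℕ) : A) = 0) {g : Equiv.Perm A} (hg : Good x g) :
    g ^ (3 ^ (κ + 1) * l') = 1 := by
  obtain ⟨i, w, hg⟩ := hg
  ext1 v
  rw [good_pow hg, geom_zero hx hn, zero_mul, add_zero]
  have h3 : x ^ 3 ^ (κ + 1) = 1 := by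
    rw [pow_succ, pow_mul]; exact cube_one hx
  rw [← pow_mul, mul_comm i, mul_assoc, pow_mul, h3, one_pow, one_mul]
  rfl

end Geom

/-! ### The representation of the free Burnside group by affine permutations -/

section Main

/-- The affine permutation `v ↦ u v + w`. -/
def aff {A : Type} [CommRing A] (u : Aˣ) (w : A) : Equiv.Perm A where
  toFun v := u * v + w
  invFun v := ↑u⁻¹ * (v - w)
  left_inv v := by simp
  right_inv v := by simp

theorem burnside_pow {α : Type} {n : ℕ} (g : Burnside α n) : g ^ n = 1 := by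
  obtain ⟨w, rfl⟩ := QuotientGroup.mk_surjective g
  rw [← QuotientGroup.mk_pow, QuotientGroup.eq_one_iff]
  exact Subgroup.subset_normalClosure ⟨w, rfl⟩

theorem main {κ l' : ℕ} (hodd : Odd (3 ^ (κ + 1) * l')) (hl' : ¬ 3 ∣ l')
    {A : Type} [CommRing A] (x : A) (hx : (x ^ 3 ^ κ) ^ 2 + x ^ 3 ^ κ + 1 = 0)
    (hnA : ((3 ^ (κ + 1) * l' : ℕ) : A) = 0)
    (lam : A →+ ZMod (3 ^ (κ + 1) * l') × ZMod (3 ^ (κ + 1) * l'))
    (h1 : lam (∑ j ∈ Finset.range (3 ^ κ), x ^ j) = (1, 0))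
    (h2 : lam (x ^ 3 ^ κ * ∑ j ∈ Finset.range (3 ^ κ), x ^ j) = (0, 1))
    (α : Type) [Nontrivial α] :
    ∃ a b : Burnside α (3 ^ (κ + 1) * l'), ∀ k l : ℕ,
      IsEmpty (↥(Subgroup.closure {a, b}) ≃* BurnsideProduct (3 ^ (κ + 1) * l') k l) := by
  classical
  obtain ⟨i0, i1, hne⟩ := exists_pair_ne α
  have hN : 0 < 3 ^ (κ + 1) := by positivity
  have h3 : x ^ 3 ^ (κ + 1) = 1 := by
    rw [pow_succ, pow_mul]; exact cube_one hx
  have hxi : x * x ^ (3 ^ (κ + 1) - 1) = 1 := by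
    rw [← pow_succ', Nat.sub_add_cancel hN, h3]
  let u : Aˣ := ⟨x, x ^ (3 ^ (κ + 1) - 1), hxi, by rw [mul_comm]; exact hxi⟩
  have hu : (u : A) = x := rfl
  let PsiF : FreeGroup α →* Equiv.Perm A :=
    FreeGroup.lift (fun i => if i = i0 then aff u 0 else aff u 1)
  have hgood : ∀ w, Good x (PsiF w) := by
    intro w
    have hof : ∀ i, Good x (PsiF (FreeGroup.of i)) := by
      intro i
      have : PsiF (FreeGroup.of i) = if i = i0 then aff u 0 else aff u 1 :=
        FreeGroup.lift_apply_of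
      rw [this]
      split_ifs
      · exact ⟨1, 0, fun v => by simp [aff, hu]⟩
      · exact ⟨1, 1, fun v => by simp [aff, hu]⟩
    induction w using FreeGroup.induction_on with
    | C1 => rw [map_one]; exact good_one x
    | of i => exact hof i
    | inv_of i _ => rw [map_inv]; exact good_inv hN h3 (hof i)
    | mul w w' hw hw' => rw [map_mul]; exact good_mul hw hw'
  have hker : Subgroup.normalClosure
      (Set.range (fun g : FreeGroup α => g ^ (3 ^ (κ + 1) * l'))) ≤ PsiF.ker := by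
    apply Subgroup.normalClosure_le_normal
    rintro _ ⟨g, rfl⟩
    rw [SetLike.mem_coe, MonoidHom.mem_ker, map_pow]
    exact good_exponent hx hnA (hgood g)
  let PsiB : Burnside α (3 ^ (κ + 1) * l') →* Equiv.Perm A :=
    QuotientGroup.lift _ PsiF (fun w hw => hker hw)
  have hPsiB : ∀ w : FreeGroup α,
      PsiB (QuotientGroup.mk w : Burnside α (3 ^ (κ + 1) * l')) = PsiF w := fun w => rfl
  let m : ℕ := 3 ^ κ * l' ^ 2
  let s : Burnside α (3 ^ (κ + 1) * l') := (QuotientGroup.mk (FreeGroup.of i0)) ^ m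
  let t : Burnside α (3 ^ (κ + 1) * l') := (QuotientGroup.mk (FreeGroup.of i1)) ^ m
  have hm3 : m * 3 = (3 ^ (κ + 1) * l') * l' := by
    simp only [m]; ring
  have hs : s ^ 3 = 1 := by
    simp only [s]
    rw [← pow_mul, hm3, pow_mul, burnside_pow, one_pow]
  have ht : t ^ 3 = 1 := by
    simp only [t]
    rw [← pow_mul, hm3, pow_mul, burnside_pow, one_pow]
  obtain ⟨e, he⟩ : ∃ e, l' ^ 2 = 3 * e + 1 := by
    have h01 : l' % 3 = 1 ∨ l' % 3 = 2 := by omega
    have : l' ^ 2 % 3 = 1 := by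
      rcases h01 with h | h <;> simp [Nat.pow_mod, h]
    exact ⟨l' ^ 2 / 3, by omega⟩
  set W : A := x ^ 3 ^ κ with hW
  set c : A := ∑ j ∈ Finset.range (3 ^ κ), x ^ j with hc
  have hW3 : W ^ 3 = 1 := cube_one hx
  have hxm : x ^ m = W := by
    simp only [m]
    rw [pow_mul, ← hW, he, pow_add, pow_mul, hW3, one_pow, one_mul, pow_one]
  have hcm : ∑ j ∈ Finset.range m, x ^ j = c := by
    simp only [m]
    rw [geom_mul, ← hW, ← hc, he, Finset.sum_range_succ, geom_three hx, zero_add, pow_mul, hW3,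
      one_pow, mul_one]
  have hPs : ∀ v, PsiB s v = W * v := by
    intro v
    have e0 : PsiB (QuotientGroup.mk (FreeGroup.of i0) : Burnside α (3 ^ (κ + 1) * l')) =
        aff u 0 := by
      rw [hPsiB]
      simp [PsiF]
    have e1 : ∀ v, (aff u 0) v = x ^ 1 * v + 0 := fun v => by simp [aff, hu]
    simp only [s]
    rw [map_pow, e0, good_pow e1]
    simp only [pow_one, mul_zero, add_zero]
    rw [hxm]
  have hPt : ∀ v, PsiB t v = W * v + c := by
    intro v
    have e0 : PsiB (QuotientGroup.mk (FreeGroup.of i1) : Burnside α (3 ^ (κ + 1) * l')) =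
        aff u 1 := by
      rw [hPsiB]
      simp [PsiF, hne.symm]
    have e1 : ∀ v, (aff u 1) v = x ^ 1 * v + 1 := fun v => by simp [aff, hu]
    simp only [t]
    rw [map_pow, e0, good_pow e1]
    simp only [pow_one, mul_one]
    rw [hxm, hcm]
  have hPt' : ∀ v, (PsiB t)⁻¹ v = W ^ 2 * (v - c) := by
    intro v
    apply (PsiB t).injective
    rw [show PsiB t ((PsiB t)⁻¹ v) = v from (PsiB t).apply_symm_apply v, hPt]
    linear_combination (c - v) * hW3
  have hPa : ∀ v, PsiB (s * t⁻¹) v = v - c := by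
    intro v
    rw [map_mul, map_inv, Equiv.Perm.mul_apply, hPt', hPs]
    linear_combination (v - c) * hW3
  have hPb : ∀ v, PsiB (t⁻¹ * s) v = v + (c + W * c) := by
    intro v
    rw [map_mul, map_inv, Equiv.Perm.mul_apply, hPt', hPs]
    linear_combination v * hW3 - c * hx
  have htr : ∀ h ∈ Subgroup.closure ({s * t⁻¹, t⁻¹ * s} : Set (Burnside α (3 ^ (κ + 1) * l'))),
      ∀ v, PsiB h v = v + PsiB h 0 := by
    intro h hh
    induction hh using Subgroup.closure_induction with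
    | mem y hy =>
      intro v
      rcases hy with rfl | hy
      · rw [hPa, hPa]; ring
      · rw [Set.mem_singleton_iff] at hy
        rw [hy, hPb, hPb]; ring
    | one => intro v; rw [map_one]; simp
    | mul y z _ _ hy hz =>
      intro v
      rw [map_mul, Equiv.Perm.mul_apply, Equiv.Perm.mul_apply, hz v, hy (v + _), hy (PsiB z 0)]
      ring
    | inv y _ hy =>
      intro v
      have k1 : PsiB y ((PsiB y)⁻¹ v) = v := (PsiB y).apply_symm_apply v
      have k2 : PsiB y ((PsiB y)⁻¹ 0) = 0 := (PsiB y).apply_symm_apply 0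
      rw [hy] at k1 k2
      rw [map_inv]
      linear_combination k1 - k2
  let pi : Subgroup.closure ({s * t⁻¹, t⁻¹ * s} : Set (Burnside α (3 ^ (κ + 1) * l'))) →*
      Multiplicative (ZMod (3 ^ (κ + 1) * l') × ZMod (3 ^ (κ + 1) * l')) :=
    { toFun := fun h => Multiplicative.ofAdd (lam (PsiB h.1 0))
      map_one' := by simp
      map_mul' := by
        intro y z
        rw [← ofAdd_add, ← map_add]
        congr 2
        rw [Subgroup.coe_mul, map_mul, Equiv.Perm.mul_apply, htr y.1 y.2 (PsiB z.1 0)]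
        ring }
  refine ⟨s * t⁻¹, t⁻¹ * s, fun k l => ⟨fun φ => ?_⟩⟩
  have ha : s * t⁻¹ ∈
      Subgroup.closure ({s * t⁻¹, t⁻¹ * s} : Set (Burnside α (3 ^ (κ + 1) * l'))) :=
    Subgroup.subset_closure (by simp)
  have hb : t⁻¹ * s ∈
      Subgroup.closure ({s * t⁻¹, t⁻¹ * s} : Set (Burnside α (3 ^ (κ + 1) * l'))) :=
    Subgroup.subset_closure (by simp)
  have hpa : Multiplicative.toAdd (pi ⟨s * t⁻¹, ha⟩) = (-1, 0) := by
    show lam (PsiB (s * t⁻¹) 0) = (-1, 0)
    rw [hPa, zero_sub, map_neg, h1]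
    simp
  have hpb : Multiplicative.toAdd (pi ⟨t⁻¹ * s, hb⟩) = (1, 1) := by
    show lam (PsiB (t⁻¹ * s) 0) = (1, 1)
    rw [hPb, zero_add, map_add, h1, h2]
    simp
  have hcomm : ((t⁻¹ * s)⁻¹ * (s * t⁻¹) * (t⁻¹ * s) * (s * t⁻¹)⁻¹) ^ (3 ^ κ * l') = 1 := by
    rw [comm_eq_cube s t hs ht, ← pow_mul]
    have : 3 * (3 ^ κ * l') = 3 ^ (κ + 1) * l' := by ring
    rw [this]
    exact burnside_pow _
  have hfin := core hodd (s * t⁻¹) (t⁻¹ * s) (3 ^ κ * l') hcomm pi ha hb hpa hpb k l φ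
  rw [ZMod.natCast_eq_zero_iff] at hfin
  have hl0 : 0 < l' := Nat.pos_of_ne_zero (fun h => hl' (h ▸ dvd_zero _))
  have hpos : 0 < 3 ^ κ * l' := by positivity
  have hle := Nat.le_of_dvd hpos hfin
  have : 3 ^ (κ + 1) * l' = 3 * (3 ^ κ * l') := by ring
  omega

end Main

section Ring

open Polynomial

/-- The ring `(ZMod n)[x] / (x ^ (2 q) + x ^ q + 1)` has the properties used above. -/
theorem ring_exists (n : ℕ) (hn : 1 < n) (κ : ℕ) :
    ∃ (A : Type) (_ : CommRing A) (x : A) (lam : A →+ ZMod n × ZMod n),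
      (x ^ 3 ^ κ) ^ 2 + x ^ 3 ^ κ + 1 = 0 ∧ ((n : ℕ) : A) = 0 ∧
      lam (∑ j ∈ Finset.range (3 ^ κ), x ^ j) = (1, 0) ∧
      lam (x ^ 3 ^ κ * ∑ j ∈ Finset.range (3 ^ κ), x ^ j) = (0, 1) := by
  have : Fact (1 < n) := ⟨hn⟩
  have hq : 0 < 3 ^ κ := by positivity
  generalize 3 ^ κ = q at hq
  let f : (ZMod n)[X] := X ^ (2 * q) + (X ^ q + 1)
  have hdeg1 : (X ^ q + 1 : (ZMod n)[X]).degree < ((2 * q : ℕ) : WithBot ℕ) := by
    refine lt_of_le_of_lt (degree_add_le _ _) (max_lt ?_ ?_)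
    · rw [degree_X_pow]; exact_mod_cast (by omega)
    · rw [degree_one]; exact_mod_cast (by omega)
  have hmon : f.Monic := monic_X_pow_add hdeg1
  have hfdeg : f.degree = ((2 * q : ℕ) : WithBot ℕ) := by
    simp only [f]
    rw [degree_add_eq_left_of_degree_lt, degree_X_pow]
    rw [degree_X_pow]
    exact hdeg1
  have hroot : (AdjoinRoot.root f) ^ (2 * q) + ((AdjoinRoot.root f) ^ q + 1) = 0 := by
    have h : AdjoinRoot.mk f (X ^ (2 * q) + (X ^ q + 1)) = 0 := AdjoinRoot.mk_self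
    rw [map_add, map_add, map_pow, map_pow, map_one, AdjoinRoot.mk_X] at h
    exact h
  refine ⟨AdjoinRoot f, inferInstance, AdjoinRoot.root f,
    (AddMonoidHom.prod (lcoeff (ZMod n) 0).toAddMonoidHom (lcoeff (ZMod n) q).toAddMonoidHom).comp
      (AdjoinRoot.modByMonicHom hmon).toAddMonoidHom, ?_, ?_, ?_, ?_⟩
  · rw [← pow_mul, mul_comm q 2, add_assoc]
    exact hroot
  · have : ((n : ℕ) : AdjoinRoot f) = AdjoinRoot.of f ((n : ℕ) : ZMod n) :=
      (map_natCast (AdjoinRoot.of f) n).symm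
    rw [this, ZMod.natCast_self, map_zero]
  · have hmk : (∑ j ∈ Finset.range q, (AdjoinRoot.root f) ^ j) =
        AdjoinRoot.mk f (∑ j ∈ Finset.range q, X ^ j) := by simp
    have hlt : (∑ j ∈ Finset.range q, X ^ j : (ZMod n)[X]).degree < f.degree := by
      rw [hfdeg]
      refine lt_of_le_of_lt (degree_sum_le _ _) ?_
      rw [Finset.sup_lt_iff (WithBot.bot_lt_coe _)]
      intro j hj
      rw [Finset.mem_range] at hj
      rw [degree_X_pow]; exact_mod_cast (by omega)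
    have hmod : (∑ j ∈ Finset.range q, X ^ j : (ZMod n)[X]) %ₘ f = ∑ j ∈ Finset.range q, X ^ j :=
      (modByMonic_eq_self_iff hmon).2 hlt
    rw [hmk]
    show (((AdjoinRoot.modByMonicHom hmon) (AdjoinRoot.mk f _)).coeff 0,
      ((AdjoinRoot.modByMonicHom hmon) (AdjoinRoot.mk f _)).coeff q) = (1, 0)
    rw [AdjoinRoot.modByMonicHom_mk, hmod]
    ext
    · simp [coeff_X_pow, hq]
    · simp [coeff_X_pow]
  · have hmk : (AdjoinRoot.root f) ^ q * (∑ j ∈ Finset.range q, (AdjoinRoot.root f) ^ j) =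
        AdjoinRoot.mk f (∑ j ∈ Finset.range q, X ^ (q + j)) := by
      simp [Finset.mul_sum, pow_add]
    have hlt : (∑ j ∈ Finset.range q, X ^ (q + j) : (ZMod n)[X]).degree < f.degree := by
      rw [hfdeg]
      refine lt_of_le_of_lt (degree_sum_le _ _) ?_
      rw [Finset.sup_lt_iff (WithBot.bot_lt_coe _)]
      intro j hj
      rw [Finset.mem_range] at hj
      rw [degree_X_pow]; exact_mod_cast (by omega)
    have hmod : (∑ j ∈ Finset.range q, X ^ (q + j) : (ZMod n)[X]) %ₘ f =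
        ∑ j ∈ Finset.range q, X ^ (q + j) :=
      (modByMonic_eq_self_iff hmon).2 hlt
    rw [hmk]
    show (((AdjoinRoot.modByMonicHom hmon) (AdjoinRoot.mk f _)).coeff 0,
      ((AdjoinRoot.modByMonicHom hmon) (AdjoinRoot.mk f _)).coeff q) = (0, 1)
    rw [AdjoinRoot.modByMonicHom_mk, hmod]
    ext
    · simp only [finsetSum_coeff, coeff_X_pow]
      refine Finset.sum_eq_zero fun j _ => ?_
      rw [if_neg (by omega)]
    · simp only [finsetSum_coeff, coeff_X_pow]
      rw [Finset.sum_eq_single 0]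
      · simp
      · intro j _ hj
        rw [if_neg (by omega)]
      · intro h
        exact absurd (Finset.mem_range.2 hq) h

end Ring

/-- **Main result.** For every odd `n` divisible by `3` and every rank `≥ 2` (finite or infinite),
the free Burnside group of exponent `n` on a set `α` with at least two elements has a two-generated
subgroup which is not isomorphic to any Burnside `n`-product of two cyclic groups. -/
theorem result : ∀ n : ℕ, Odd n → 3 ∣ n → ∀ (α : Type) [Nontrivial α],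
    ∃ a b : Burnside α n, ∀ k l : ℕ,
      IsEmpty (↥(Subgroup.closure {a, b}) ≃* BurnsideProduct n k l) := by
  intro n hodd h3 α _
  have hn0 : n ≠ 0 := by
    rintro rfl
    simp at hodd
  obtain ⟨e, l', hl', hne⟩ := Nat.exists_eq_pow_mul_and_not_dvd hn0 3 (by norm_num)
  have he : e ≠ 0 := by
    rintro rfl
    rw [pow_zero, one_mul] at hne
    exact hl' (hne ▸ h3)
  obtain ⟨κ, rfl⟩ := Nat.exists_eq_succ_of_ne_zero he
  subst hne
  have hn1 : 1 < 3 ^ (κ + 1) * l' := by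
    have h2 : 0 < 3 ^ (κ + 1) * l' := Nat.pos_of_ne_zero hn0
    have := Nat.le_of_dvd h2 h3
    omega
  obtain ⟨A, _, x, lam, hx, hnA, h1, h2⟩ := ring_exists (3 ^ (κ + 1) * l') hn1 κ
  exact main hodd hl' x hx hnA lam h1 h2 α

end Pool.Agent.Results.MP_334071_al.AllOddMultiplesOfThree
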